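import Pool.Agent.H29.LG.Targets

/-!
# MP_c65535_nt, board lgx_modules, row NORK
-/

set_option autoImplicit false

namespace Pool.Agent.H99.LG

open NumberField Height Finset Polynomial Pool.Agent.H24.RD Pool.Agent.H23.RDD Pool.Agent.H29.RQ
  Pool.Agent.H29.SX Pool.Agent.H29.LG

theorem pf_NORK : T_NORK := by
  classical
  intro F Ω _ _ _ _ _ _ _ r γ hγ K hK T hT E d β g hTE hβ hCj hRed hg
  obtain ⟨hg0, n, hn, x, hx⟩ := hg
  have hnz : (0 : ℤ) < n := by exact_mod_cast hn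
  have hγ' : ∀ i, algebraMap F Ω (γ i) ≠ 0 := fun i => by
    rw [Ne, map_eq_zero]
    exact hγ i
  have hT0 : ∀ i, T i ≠ 0 := fun i h => hγ' i (by rw [← hT i, h, zero_pow hK.ne'])
  have hx' : g ^ n = ∏ i, T i ^ ((K : ℤ) * x i) := by
    rw [hx]
    refine Finset.prod_congr rfl fun i _ => ?_
    rw [← hT i, zpow_mul, zpow_natCast]
  set G : Ω := ∏ i, T i ^ (((K : ℤ) * x i) / n) with hG
  have hG0 : G ≠ 0 := by
    rw [hG, Finset.prod_ne_zero_iff]
    exact fun i _ => zpow_ne_zero _ (hT0 i)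
  have hGE : G ∈ E := by
    rw [hG]
    exact prod_mem fun i _ => zpow_mem (hTE i) _
  have hpow : (g / G) ^ n = ∏ i, T i ^ (((K : ℤ) * x i) % n) := by
    rw [div_pow, hx', hG, ← Finset.prod_pow, ← Finset.prod_div_distrib]
    refine Finset.prod_congr rfl fun i _ => ?_
    rw [← zpow_natCast, ← zpow_mul, ← zpow_sub₀ (hT0 i)]
    congr 1
    have := Int.emod_add_mul_ediv ((K : ℤ) * x i) n
    linarith [mul_comm ((K : ℤ) * x i / (n : ℤ)) n]
  have hpow2 : (g / G) ^ (n * K) =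
      ∏ i, (algebraMap F Ω (γ i)) ^ (((K : ℤ) * x i) % n) := by
    rw [pow_mul, hpow, ← Finset.prod_pow]
    refine Finset.prod_congr rfl fun i _ => ?_
    rw [← hT i, ← zpow_natCast, ← zpow_natCast, ← zpow_mul, ← zpow_mul, mul_comm]
  refine ⟨β * G, g / G, n, fun i => ((K : ℤ) * x i) % n, mul_ne_zero hβ hG0,
    div_ne_zero hg0 hG0, ?_, ?_, ?_,
    ⟨div_ne_zero hg0 hG0, n * K, Nat.mul_pos hn hK, fun i => ((K : ℤ) * x i) % n, hpow2⟩, hn,
      hpow, fun i => ⟨Int.emod_nonneg _ hnz.ne', Int.emod_lt_of_pos _ hnz⟩⟩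
  · field_simp
  · obtain ⟨s, hs, hs2⟩ := hCj
    refine ⟨s.image (fun y => y * G), card_image_le.trans hs, ?_⟩
    intro σ hσ
    rw [map_mul, hσ G hGE]
    exact mem_image_of_mem _ (hs2 σ hσ)
  · intro σ hσ k hk hpk
    rw [map_mul, hσ G hGE, mul_pow, mul_pow] at hpk
    have h1 := mul_right_cancel₀ (pow_ne_zero k hG0) hpk
    rw [map_mul, hσ G hGE, hRed σ hσ k hk h1]

end Pool.Agent.H99.LG
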