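import Pool.Agent.H29.LG.Targets

/-!
# MP_c65535_nt, board lgx_modules, row VIS
-/

set_option autoImplicit false

namespace Pool.Agent.H99.LG

open NumberField Height Finset Polynomial Pool.Agent.H24.RD Pool.Agent.H23.RDD Pool.Agent.H29.RQ
  Pool.Agent.H29.SX Pool.Agent.H29.LG

/-- distinct values of the terms -/
theorem val_ne {P : ℝ} (hP0 : 0 < P) (hP1 : P < 1) {φ i j : ℕ} (hi : i < φ) (hj : j < φ)
    (hij : i ≠ j) (n m : ℤ) :
    P ^ ((n : ℝ) + i / φ) ≠ P ^ ((m : ℝ) + j / φ) := by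
  intro h
  have hφ : (0 : ℝ) < φ := by
    have : 0 < φ := by omega
    exact_mod_cast this
  have h1 : (n : ℝ) + i / φ = m + j / φ := by
    rcases lt_trichotomy ((n : ℝ) + i / φ) ((m : ℝ) + j / φ) with h2 | h2 | h2
    · exact absurd h (ne_of_gt (Real.rpow_lt_rpow_of_exponent_gt hP0 hP1 h2))
    · exact h2
    · exact absurd h (ne_of_lt (Real.rpow_lt_rpow_of_exponent_gt hP0 hP1 h2))
  have h2 : (n : ℝ) * φ + i = m * φ + j := by
    field_simp at h1
    linarith
  have h3 : n * (φ : ℤ) + i = m * φ + j := by exact_mod_cast h2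
  have h4 : (n - m) * (φ : ℤ) = j - i := by linarith
  have h5 : n - m = 0 := by
    by_contra h6
    have h7 : 1 ≤ |n - m| := Int.one_le_abs h6
    have h8 : |(n - m) * (φ : ℤ)| = |n - m| * φ := by
      rw [abs_mul, Nat.abs_cast]
    have h9 : |(j : ℤ) - i| < φ := by
      rw [abs_lt]
      constructor <;> omega
    rw [h4] at h8
    have h10 : (φ : ℤ) ≤ |n - m| * φ := by
      have : (0 : ℤ) ≤ φ := by omega
      nlinarith
    omega
  rw [h5] at h4
  omega

theorem ultra {M : Type} [Field M] (w : AbsoluteValue M ℝ) (hw : IsNonarchimedean w) {φ : ℕ}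
    (a : ℕ → M) {π π' : M} {P : ℝ} (hP0 : 0 < P) (hP1 : P < 1)
    (hπ : w π = P ^ (1 / (φ : ℝ))) (hπ' : w π' = P ^ (1 / (φ : ℝ)))
    (ha : ∀ i < φ, a i ≠ 0 → ∃ n : ℤ, w (a i) = P ^ n) :
    w (∑ i ∈ range φ, a i * π' ^ i) = w (∑ i ∈ range φ, a i * π ^ i) ∧
      (w (∑ i ∈ range φ, a i * π ^ i) ≤ 1 → ∀ i < φ, w (a i) ≤ 1) := by
  classical
  set val : ℕ → ℝ := fun i => w (a i) * P ^ ((i : ℝ) / φ) with hval
  have hpow : ∀ i : ℕ, (P ^ (1 / (φ : ℝ))) ^ i = P ^ ((i : ℝ) / φ) := by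
    intro i
    rw [← Real.rpow_natCast, ← Real.rpow_mul hP0.le]
    congr 1
    ring
  have hv1 : ∀ i, w (a i * π ^ i) = val i := by
    intro i
    rw [map_mul, map_pow, hπ, hpow]
  have hv2 : ∀ i, w (a i * π' ^ i) = val i := by
    intro i
    rw [map_mul, map_pow, hπ', hpow]
  have hneg : ∀ x : M, w x = w (-x) := fun x => (w.map_neg x).symm
  by_cases h0 : ∀ i ∈ range φ, a i = 0
  · have e1 : ∀ y : M, ∑ i ∈ range φ, a i * y ^ i = 0 := by
      intro y
      refine Finset.sum_eq_zero fun i hi => ?_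
      rw [h0 i hi, zero_mul]
    rw [e1, e1]
    refine ⟨rfl, fun _ i hi => ?_⟩
    rw [h0 i (mem_range.2 hi), map_zero]
    exact zero_le_one
  · push Not at h0
    obtain ⟨i0, hi0, hai0⟩ := h0
    obtain ⟨k, hk, hmax⟩ := Finset.exists_max_image ((range φ).filter (fun i => a i ≠ 0)) val
      ⟨i0, mem_filter.2 ⟨hi0, hai0⟩⟩
    obtain ⟨hkφ, hak⟩ := mem_filter.1 hk
    have hvk : 0 < val k := mul_pos ((AbsoluteValue.pos_iff w).2 hak) (Real.rpow_pos_of_pos hP0 _)
    have hvalz : ∀ i < φ, a i ≠ 0 → ∃ n : ℤ, w (a i) = P ^ n ∧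
        val i = P ^ ((n : ℝ) + i / φ) := by
      intro i hi hai
      obtain ⟨n, hn⟩ := ha i hi hai
      refine ⟨n, hn, ?_⟩
      rw [Real.rpow_add hP0, Real.rpow_intCast, hval]
      show w (a i) * _ = _
      rw [hn]
    have hle : ∀ j ∈ range φ, val j ≤ val k := by
      intro j hj
      by_cases haj : a j = 0
      · have : val j = 0 := by
          show w (a j) * _ = 0
          rw [haj, map_zero, zero_mul]
        rw [this]
        exact hvk.le
      · exact hmax j (mem_filter.2 ⟨hj, haj⟩)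
    have hlt : ∀ j ∈ range φ, j ≠ k → val j < val k := by
      intro j hj hjk
      by_cases haj : a j = 0
      · have : val j = 0 := by
          show w (a j) * _ = 0
          rw [haj, map_zero, zero_mul]
        rw [this]
        exact hvk
      · refine lt_of_le_of_ne (hle j hj) ?_
        obtain ⟨n, _, hn⟩ := hvalz j (mem_range.1 hj) haj
        obtain ⟨m, _, hm⟩ := hvalz k (mem_range.1 hkφ) hak
        rw [hn, hm]
        exact val_ne hP0 hP1 (mem_range.1 hj) (mem_range.1 hkφ) hjk n m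
    have s1 : w (∑ i ∈ range φ, a i * π ^ i) = val k := by
      rw [IsNonarchimedean.apply_sum_eq_of_lt hw hneg (l := fun i => a i * π ^ i) hkφ
        (fun j hj hjk => by rw [hv1, hv1]; exact hlt j hj hjk), hv1]
    have s2 : w (∑ i ∈ range φ, a i * π' ^ i) = val k := by
      rw [IsNonarchimedean.apply_sum_eq_of_lt hw hneg (l := fun i => a i * π' ^ i) hkφ
        (fun j hj hjk => by rw [hv2, hv2]; exact hlt j hj hjk), hv2]
    rw [s1, s2]
    refine ⟨rfl, fun h1 i hi => ?_⟩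
    by_cases hai : a i = 0
    · rw [hai, map_zero]
      exact zero_le_one
    · obtain ⟨n, hn, hn2⟩ := hvalz i hi hai
      have h2 : P ^ ((n : ℝ) + i / φ) ≤ 1 := by
        rw [← hn2]
        exact (hle i (mem_range.2 hi)).trans h1
      have h3 : 0 ≤ (n : ℝ) + i / φ := by
        by_contra h4
        push Not at h4
        exact absurd h2 (not_le.2 (Real.one_lt_rpow_of_pos_of_lt_one_of_neg hP0 hP1 h4))
      have h4 : (i : ℝ) / φ < 1 := by
        rw [div_lt_one (by exact_mod_cast (by omega : 0 < φ))]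
        exact_mod_cast hi
      have h5 : (-1 : ℝ) < n := by linarith
      have h6 : (0 : ℤ) ≤ n := by
        have : (-1 : ℤ) < n := by exact_mod_cast h5
        omega
      rw [hn]
      lift n to ℕ using h6
      rw [zpow_natCast]
      exact pow_le_one₀ hP0.le hP1.le

theorem diff_le {M : Type} [Field M] (w : AbsoluteValue M ℝ) (hw : IsNonarchimedean w) {φ : ℕ}
    (a : ℕ → M) {π π' : M} (hπ : w π ≤ 1) (hπ' : w π' ≤ 1) (ha : ∀ i < φ, w (a i) ≤ 1) :
    w (∑ i ∈ range φ, a i * π' ^ i - ∑ i ∈ range φ, a i * π ^ i) ≤ w (π' - π) := by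
  classical
  have hsum : ∀ (s : Finset ℕ) (f : ℕ → M) (c : ℝ), 0 ≤ c → (∀ i ∈ s, w (f i) ≤ c) →
      w (∑ i ∈ s, f i) ≤ c := by
    intro s f c hc h
    rcases s.eq_empty_or_nonempty with rfl | hs
    · simp only [Finset.sum_empty, map_zero]
      exact hc
    · refine (IsNonarchimedean.apply_sum_le_sup hw hs).trans ?_
      exact Finset.sup'_le hs _ h
  rw [← Finset.sum_sub_distrib]
  refine hsum _ _ _ (apply_nonneg w _) (fun i hi => ?_)
  have h1 : a i * π' ^ i - a i * π ^ i = a i * ((π' - π) *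
      ∑ j ∈ range i, π' ^ j * π ^ (i - 1 - j)) := by
    rw [mul_comm (π' - π), (Commute.all π' π).geom_sum₂_mul]
    ring
  rw [h1, map_mul, map_mul]
  have h2 : w (∑ j ∈ range i, π' ^ j * π ^ (i - 1 - j)) ≤ 1 := by
    refine hsum _ _ _ zero_le_one (fun j _ => ?_)
    rw [map_mul, map_pow, map_pow]
    exact mul_le_one₀ (pow_le_one₀ (apply_nonneg w _) hπ') (by positivity)
      (pow_le_one₀ (apply_nonneg w _) hπ)
  have h3 : w (π' - π) * w (∑ j ∈ range i, π' ^ j * π ^ (i - 1 - j)) ≤ w (π' - π) * 1 :=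
    mul_le_mul_of_nonneg_left h2 (apply_nonneg w _)
  have h4 := mul_le_mul (ha i (mem_range.1 hi)) h3 (by positivity) zero_le_one
  linarith

/-- the elements of `E0(ζ)` as polynomials in `1 - ζ` -/
theorem gen {F Ω : Type} [Field F] [Field Ω] [CharZero Ω] [Algebra F Ω]
    (E0 : IntermediateField F Ω) {n : ℕ} (hn : 0 < n) {ζ : Ω} (hζ : IsPrimitiveRoot ζ n) {y : Ω}
    (hy : y ∈ IntermediateField.adjoin E0 {ζ}) :
    ∃ a : ℕ → Ω, (∀ i, a i ∈ E0) ∧ y = ∑ i ∈ range (Nat.totient n), a i * (1 - ζ) ^ i := by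
  have hint : IsIntegral E0 ζ := hζ.isIntegral hn |>.tower_top
  have h1 : y ∈ (IntermediateField.adjoin E0 {ζ}).toSubalgebra := hy
  rw [IntermediateField.adjoin_simple_toSubalgebra_of_isAlgebraic hint.isAlgebraic,
    Algebra.adjoin_singleton_eq_range_aeval] at h1
  obtain ⟨q, hq⟩ := h1
  have hmon : (cyclotomic n E0).Monic := cyclotomic.monic n E0
  set r : E0[X] := q %ₘ cyclotomic n E0 with hr
  have hcy : aeval ζ (cyclotomic n E0) = 0 := by
    rw [Polynomial.aeval_def, Polynomial.eval₂_eq_eval_map, Polynomial.map_cyclotomic]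
    have : NeZero n := ⟨hn.ne'⟩
    have h2 : (cyclotomic n Ω).IsRoot ζ := Polynomial.isRoot_cyclotomic_iff.2 hζ
    exact h2
  have hr1 : aeval ζ r = y := by
    rw [hr, Polynomial.aeval_modByMonic_eq_self_of_root hcy]
    exact hq
  have htot : 0 < Nat.totient n := Nat.totient_pos.2 hn
  have hr2 : r.natDegree < Nat.totient n := by
    have h3 : (cyclotomic n E0).natDegree = Nat.totient n := natDegree_cyclotomic n E0
    rw [← h3, hr]
    refine Polynomial.natDegree_modByMonic_lt q hmon ?_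
    intro h4
    rw [h4, natDegree_one] at h3
    omega
  set R : E0[X] := r.comp (1 - X) with hR
  have hR1 : aeval (1 - ζ) R = y := by
    rw [hR, Polynomial.aeval_comp, ← hr1]
    congr 2
    rw [map_sub, map_one, aeval_X]
    ring
  have hR2 : R.natDegree < Nat.totient n := by
    refine lt_of_le_of_lt ?_ hr2
    rw [hR]
    refine Polynomial.natDegree_comp_le.trans ?_
    have h5 : (1 - X : E0[X]).natDegree ≤ 1 := by
      refine (Polynomial.natDegree_sub_le _ _).trans ?_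
      rw [natDegree_one, natDegree_X]
      exact le_rfl
    calc r.natDegree * (1 - X : E0[X]).natDegree ≤ r.natDegree * 1 := Nat.mul_le_mul_left _ h5
      _ = r.natDegree := mul_one _
  refine ⟨fun i => (R.coeff i : Ω), fun i => (R.coeff i).2, ?_⟩
  rw [← hR1, Polynomial.aeval_eq_sum_range' hR2]
  refine Finset.sum_congr rfl fun i _ => ?_
  rw [Algebra.smul_def]
  rfl

/-- the level field is generated by `ζ` over the part prime to `p` -/
theorem lv_le {F Ω : Type} [Field F] [Field Ω] [CharZero Ω] [Algebra F Ω] {r : ℕ} (γ : Fin r → F)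
    {q N' N K : ℕ} (hN : N = q * N') (hN0 : 0 < N) (hc : Nat.Coprime q N') {ζ : Ω}
    (hζ : IsPrimitiveRoot ζ q) {y : Ω} (hy : y ∈ Lv F Ω γ N K) :
    y ∈ IntermediateField.adjoin (Lv F Ω γ N' K) {ζ} := by
  have hq0 : 0 < q := by
    rcases Nat.eq_zero_or_pos q with h | h
    · rw [h, zero_mul] at hN
      omega
    · exact h
  have hle : Lv F Ω γ N K ≤
      (IntermediateField.adjoin (Lv F Ω γ N' K) {ζ}).restrictScalars F := by
    unfold Lv
    rw [IntermediateField.adjoin_le_iff]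
    have hE0 : ∀ z : Ω, z ∈ Lv F Ω γ N' K →
        z ∈ IntermediateField.adjoin (Lv F Ω γ N' K) {ζ} := fun z hz =>
      (IntermediateField.adjoin (Lv F Ω γ N' K) {ζ}).algebraMap_mem ⟨z, hz⟩
    have hζR : ζ ∈ IntermediateField.adjoin (Lv F Ω γ N' K) {ζ} :=
      IntermediateField.mem_adjoin_simple_self _ ζ
    rintro z (hz | ⟨i, hz⟩)
    · show z ∈ IntermediateField.adjoin (Lv F Ω γ N' K) {ζ}
      have hz0 : z ≠ 0 := by
        rintro rfl
        rw [zero_pow hN0.ne'] at hz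
        exact zero_ne_one hz
      have hu : (z ^ N') ^ q = 1 := by
        rw [← pow_mul, mul_comm, ← hN]
        exact hz
      have ht : (z ^ q) ^ N' = 1 := by
        rw [← pow_mul, ← hN]
        exact hz
      have : NeZero q := ⟨hq0.ne'⟩
      obtain ⟨j, _, hj⟩ := hζ.eq_pow_of_pow_eq_one hu
      have hu1 : z ^ N' ∈ IntermediateField.adjoin (Lv F Ω γ N' K) {ζ} := by
        rw [← hj]
        exact pow_mem hζR j
      have ht1 : z ^ q ∈ IntermediateField.adjoin (Lv F Ω γ N' K) {ζ} :=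
        hE0 _ (IntermediateField.subset_adjoin F _ (Or.inl ht))
      obtain ⟨a, b, hab⟩ := (Nat.isCoprime_iff_coprime.2 hc : IsCoprime (q : ℤ) (N' : ℤ))
      have e1 : z = (z ^ q) ^ a * (z ^ N') ^ b := by
        rw [← zpow_natCast, ← zpow_natCast, ← zpow_mul, ← zpow_mul, ← zpow_add₀ hz0]
        have : (q : ℤ) * a + (N' : ℤ) * b = 1 := by linarith
        rw [this, zpow_one]
      rw [e1]
      exact mul_mem (zpow_mem ht1 a) (zpow_mem hu1 b)
    · exact hE0 z (IntermediateField.subset_adjoin F _ (Or.inr ⟨i, hz⟩))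
  exact hle hy

theorem w_root {M : Type} [Field M] (w : AbsoluteValue M ℝ) {ζ : M} {n : ℕ} (hn : 0 < n)
    (h : ζ ^ n = 1) : w ζ = 1 := by
  have h1 : w ζ ^ n = 1 := by rw [← map_pow, h, map_one]
  exact (pow_eq_one_iff_of_nonneg (apply_nonneg w _) hn.ne').1 h1

theorem val_of_wv {M : Type} [Field M] (w : AbsoluteValue M ℝ) {p : ℕ} (hP0 : 0 < w (p : M))
    (hP1 : w (p : M) < 1) {y : M} (hy : y ≠ 0) {e : ℝ} (h : wv w p y = e) :
    w y = w (p : M) ^ e := by
  have h1 : Real.log (w (p : M)) ≠ 0 := (Real.log_neg hP0 hP1).ne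
  unfold wv at h
  rw [div_eq_iff h1] at h
  have h2 : 0 < w y := (AbsoluteValue.pos_iff w).2 hy
  rw [← Real.exp_log h2, h, Real.rpow_def_of_pos hP0, mul_comm]

theorem pf_VIS (h1 : T_VB) (h2 : T_LVB) (h3 : T_UNK) : T_VIS := by
  classical
  intro F Ω _ _ _ _ _ _ _ r γ hγ p hgp N K hN hKN hpK hpN σ hσ M _ hEM w hw x x' hx hx'
  have hp : p.Prime := hgp.1
  have hK0 : 0 < K := Nat.pos_of_dvd_of_pos hKN hN
  obtain ⟨v, N', hpN', hNe⟩ := Nat.exists_eq_pow_mul_and_not_dvd hN.ne' p hp.ne_one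
  have hv : 1 ≤ v := by
    rcases Nat.eq_zero_or_pos v with h | h
    · rw [h, pow_zero, one_mul] at hNe
      rw [hNe] at hpN
      exact absurd hpN hpN'
    · exact h
  have hq0 : 0 < p ^ v := pow_pos hp.pos v
  have hN'0 : 0 < N' := by
    rcases Nat.eq_zero_or_pos N' with h | h
    · rw [h, mul_zero] at hNe
      omega
    · exact h
  have hcop : Nat.Coprime (p ^ v) N' := Nat.Coprime.pow_left v ((Nat.Prime.coprime_iff_not_dvd hp).2 hpN')
  have hKN' : K ∣ N' := by
    have h4 : Nat.Coprime K (p ^ v) :=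
      Nat.Coprime.pow_right v ((Nat.Prime.coprime_iff_not_dvd hp).2 hpK).symm
    rw [hNe] at hKN
    exact h4.dvd_of_dvd_mul_left hKN
  have hNp : N / p = p ^ (v - 1) * N' := by
    rw [hNe]
    have : p ^ v = p * p ^ (v - 1) := by
      rw [← pow_succ']
      congr 1
      omega
    rw [this, mul_assoc, Nat.mul_div_cancel_left _ hp.pos]
  have hpNp : p * (N / p) = N := Nat.mul_div_cancel' hpN
  -- the field `E0`
  have hE0E : Lv F Ω γ N' K ≤ Lv F Ω γ N K := by
    unfold Lv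
    refine IntermediateField.adjoin.mono F _ _ ?_
    rintro z (hz | hz)
    · refine Or.inl ?_
      rw [hNe, mul_comm, pow_mul, hz, one_pow]
    · exact Or.inr hz
  have hE0σ : ∀ z ∈ Lv F Ω γ N' K, σ z = z := by
    have hle : Lv F Ω γ N' K ≤ Lv F Ω γ (N / p) K := by
      unfold Lv
      refine IntermediateField.adjoin.mono F _ _ ?_
      rintro z (hz | hz)
      · refine Or.inl ?_
        rw [hNp, mul_comm, pow_mul, hz, one_pow]
      · exact Or.inr hz
    exact fun z hz => hσ z (hle hz)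
  -- the root of unity
  obtain ⟨-, -, ⟨ζN, hζN⟩, -, -, -⟩ := h2 F Ω r γ hγ N K hN hK0
  have hζN' : IsPrimitiveRoot (ζN : Ω) N :=
    hζN.map_of_injective (f := algebraMap (Lv F Ω γ N K) Ω) (algebraMap (Lv F Ω γ N K) Ω).injective
  set ζ : Ω := (ζN : Ω) ^ N' with hζd
  have hζ : IsPrimitiveRoot ζ (p ^ v) := by
    refine hζN'.pow hN ?_
    rw [hNe, mul_comm]
  clear_value ζ
  have hmemE : ∀ z : Ω, z ^ N = 1 → z ∈ Lv F Ω γ N K := fun z hz =>
    IntermediateField.subset_adjoin F _ (Or.inl hz)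
  have hζq : ζ ^ N = 1 := by
    rw [hNe, pow_mul, hζ.pow_eq_one, one_pow]
  have hσζq : (σ ζ) ^ N = 1 := by rw [← map_pow, hζq, map_one]
  have hσζ : IsPrimitiveRoot (σ ζ) (p ^ v) := hζ.map_of_injective σ.injective
  set z1 : M := ⟨ζ, hEM (hmemE ζ hζq)⟩ with hz1
  set z2 : M := ⟨σ ζ, hEM (hmemE _ hσζq)⟩ with hz2
  have hz1p : IsPrimitiveRoot z1 (p ^ v) :=
    IsPrimitiveRoot.of_map_of_injective (f := algebraMap M Ω) hζ (algebraMap M Ω).injective
  have hz2p : IsPrimitiveRoot z2 (p ^ v) :=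
    IsPrimitiveRoot.of_map_of_injective (f := algebraMap M Ω) hσζ (algebraMap M Ω).injective
  -- valuations
  obtain ⟨hna, hP0, -, -, -, hroot, -⟩ := h1 M p hp w hw
  set P : ℝ := w.1 (p : M) with hPd
  have hφ : ((Nat.totient (p ^ v) : ℕ) : ℝ) = (p : ℝ) ^ (v - 1) * (p - 1) := by
    rw [Nat.totient_prime_pow hp (by omega), Nat.cast_mul, Nat.cast_pow, Nat.cast_sub hp.one_le,
      Nat.cast_one]
  have hp1 : 1 < p ^ v := Nat.one_lt_pow (by omega) hp.one_lt
  have hw1 : w.1 (1 - z1) = P ^ (1 / ((Nat.totient (p ^ v) : ℕ) : ℝ)) := by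
    rw [hφ]
    refine val_of_wv w.1 hP0 hw ?_ (hroot v z1 hv hz1p)
    intro h
    exact hz1p.ne_one hp1 (sub_eq_zero.1 h).symm
  have hw2 : w.1 (1 - z2) = P ^ (1 / ((Nat.totient (p ^ v) : ℕ) : ℝ)) := by
    rw [hφ]
    refine val_of_wv w.1 hP0 hw ?_ (hroot v z2 hv hz2p)
    intro h
    exact hz2p.ne_one hp1 (sub_eq_zero.1 h).symm
  -- the coefficients
  obtain ⟨a, haE, hxa⟩ := gen (Lv F Ω γ N' K) hq0 hζ (lv_le γ hNe hN hcop hζ hx)
  set aM : ℕ → M := fun i => ⟨a i, hEM (hE0E (haE i))⟩ with haM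
  have hxs : x = ∑ i ∈ range (Nat.totient (p ^ v)), aM i * (1 - z1) ^ i := by
    refine (algebraMap M Ω).injective ?_
    rw [map_sum]
    have e1 : algebraMap M Ω x = (x : Ω) := rfl
    rw [e1, hxa]
    refine Finset.sum_congr rfl fun i _ => ?_
    rw [map_mul, map_pow, map_sub, map_one]
    rfl
  have hxs' : x' = ∑ i ∈ range (Nat.totient (p ^ v)), aM i * (1 - z2) ^ i := by
    refine (algebraMap M Ω).injective ?_
    rw [map_sum]
    have e1 : algebraMap M Ω x' = (x' : Ω) := rfl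
    rw [e1, hx', hxa, map_sum]
    refine Finset.sum_congr rfl fun i _ => ?_
    have e2 : σ (a i * (1 - ζ) ^ i) = a i * (1 - σ ζ) ^ i := by
      rw [map_mul σ, hE0σ _ (haE i), map_pow σ (1 - ζ) i, map_sub σ 1 ζ, map_one σ]
    rw [e2, map_mul, map_pow, map_sub, map_one]
    rfl
  have hval : ∀ i < Nat.totient (p ^ v), aM i ≠ 0 → ∃ n : ℤ, w.1 (aM i) = P ^ n := by
    intro i _ hai
    exact h3 F Ω r γ hγ p hgp N' K hN'0 hKN' hpN' M (hE0E.trans hEM) w hw (aM i) (haE i) hai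
  obtain ⟨u1, u2⟩ := ultra w.1 hna aM hP0 hw hw1 hw2 hval
  rw [← hxs, ← hxs'] at u1
  rw [← hxs] at u2
  refine ⟨u1, fun hx1 => ?_⟩
  have hle1 : ∀ e : ℝ, 0 ≤ e → P ^ e ≤ 1 := fun e he => Real.rpow_le_one hP0.le hw.le he
  have hd := diff_le w.1 hna (φ := Nat.totient (p ^ v)) aM (π := 1 - z1) (π' := 1 - z2)
    (by rw [hw1]; exact hle1 _ (by positivity)) (by rw [hw2]; exact hle1 _ (by positivity))
    (u2 hx1)
  rw [← hxs, ← hxs'] at hd
  refine hd.trans ?_
  -- `ω`
  have hz10 : z1 ≠ 0 := hz1p.ne_zero (by omega)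
  set ω : M := z2 / z1 with hω
  have hωp : ω ^ p = 1 := by
    have e1 : z2 ^ p = z1 ^ p := by
      refine (algebraMap M Ω).injective ?_
      rw [map_pow, map_pow]
      show (σ ζ) ^ p = ζ ^ p
      rw [← map_pow]
      refine hσ _ (IntermediateField.subset_adjoin F _ (Or.inl ?_))
      rw [← pow_mul, hpNp]
      exact hζq
    rw [hω, div_pow, e1, div_self (pow_ne_zero _ hz10)]
  have e2 : 1 - z2 - (1 - z1) = z1 * (1 - ω) := by
    rw [hω]
    field_simp
    ring
  have hz1w : w.1 z1 = 1 := w_root w.1 hq0 hz1p.pow_eq_one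
  rw [e2, map_mul, hz1w, one_mul]
  by_cases hω1 : ω = 1
  · rw [hω1, sub_self, map_zero]
    positivity
  · have hωr : IsPrimitiveRoot ω (p ^ 1) := by
      rw [pow_one]
      have : Fact p.Prime := ⟨hp⟩
      have e3 : orderOf ω = p := orderOf_eq_prime hωp hω1
      rw [← e3]
      exact IsPrimitiveRoot.orderOf ω
    have e4 := val_of_wv w.1 hP0 hw (fun h => hω1 (sub_eq_zero.1 h).symm) (hroot 1 ω le_rfl hωr)
    rw [e4]
    have hp2 : (2 : ℝ) ≤ p := by exact_mod_cast hp.two_le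
    refine Real.rpow_le_rpow_of_exponent_ge hP0 hw.le ?_
    rw [Nat.sub_self, pow_zero, one_mul]
    exact one_div_le_one_div_of_le (by linarith) (by linarith)

end Pool.Agent.H99.LG
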